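import Mathlib
import Pool.Agent.Lib.MP_ba8b4a_pr.Model
import Pool.Agent.Lib.MP_ba8b4a_pr.Bern
import Pool.Agent.Lib.MP_ba8b4a_pr.LowerAsymp

open MeasureTheory ProbabilityTheory Filter
open scoped Topology
open Pool.Agent.Lib.MP_ba8b4a_pr

namespace Pool.Agent.Results.MP_ba8b4a_pr.Threshold

lemma expMeasure_nullSingleton (r : ℝ) : NullSingletonClass (expMeasure r) := by
  unfold expMeasure gammaMeasure
  infer_instance

/-- the exponential law takes every value in `(0,1)` on half-lines -/
lemma expMeasure_Iio {r q : ℝ} (hr : 0 < r) (h0 : 0 < q) (h1 : q < 1) :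
    expMeasure r (Set.Iio (-Real.log (1 - q) / r)) = ENNReal.ofReal q := by
  have := isProbabilityMeasure_expMeasure hr
  have := expMeasure_nullSingleton r
  have ht : 0 ≤ -Real.log (1 - q) / r := by
    apply div_nonneg _ hr.le
    have := Real.log_nonpos (show 0 ≤ 1 - q by linarith) (show 1 - q ≤ 1 by linarith)
    linarith
  have h2 := cdf_expMeasure_eq hr (-Real.log (1 - q) / r)
  rw [if_pos ht, mul_div_cancel₀ _ hr.ne', neg_neg, Real.exp_log (by linarith)] at h2
  have h3 := ofReal_cdf (expMeasure r) (-Real.log (1 - q) / r)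
  rw [h2] at h3
  rw [measure_congr (Iio_ae_eq_Iic), ← h3]
  congr 1
  ring

/-- The connectivity threshold of the mutual-preference graph is at `c = 1`. -/
theorem result (c : ℝ) (k : ℕ → ℕ)
    (hk : Tendsto (fun n : ℕ => (k n : ℝ) / Real.log n) atTop (𝓝 c)) :
    (1 < c → Tendsto (fun n => costLaw n {C | (mutualGraph (k n) C).Connected}) atTop (𝓝 1)) ∧
      (c < 1 → Tendsto (fun n => costLaw n {C | (mutualGraph (k n) C).Connected}) atTop
        (𝓝 0)) := by
  constructor
  · intro hc
    set c' : ℝ := (1 + c) / 2 with hc'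
    have h1 : 1 < c' := by rw [hc']; linarith
    have h2 : c' < c := by rw [hc']; linarith
    obtain ⟨q, m₀, hq, hlim⟩ := tendsto_not_good h1
    have hlow : Tendsto (fun n => 1 - ENNReal.ofReal (pw (q n)
        (fun A : Finset (Sym2 (Fin n)) => ¬ Good A ⌊c' * Real.log n⌋₊ (m₀ n)))) atTop
        (𝓝 1) := by
      have h3 := ENNReal.tendsto_ofReal hlim
      rw [ENNReal.ofReal_zero] at h3
      have h4 := ENNReal.Tendsto.sub (tendsto_const_nhds (x := (1 : ENNReal)) (f := atTop)) h3
        (Or.inl ENNReal.one_ne_top)
      rwa [tsub_zero] at h4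
    refine tendsto_of_tendsto_of_tendsto_of_le_of_le' hlow tendsto_const_nhds ?_ ?_
    · filter_upwards [hq, hk.eventually_const_lt h2, tendsto_log_nat.eventually_gt_atTop 0,
        eventually_gt_atTop 0] with n hqn hkn hlog hn
      have hn0 : (0 : ℝ) < n := by exact_mod_cast hn
      have hr : 0 < 1 / (n : ℝ) := by positivity
      have := isProbabilityMeasure_expMeasure hr
      have hkk : ⌊c' * Real.log n⌋₊ ≤ k n := by
        rw [lt_div_iff₀ hlog] at hkn
        apply Nat.floor_le_of_le
        exact hkn.le
      have hbp := below_prob (n := n) (expMeasure (1 / (n : ℝ))) hqn.1.le hqn.2.le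
        (expMeasure_Iio hr hqn.1 hqn.2)
        (fun A : Finset (Sym2 (Fin n)) => ¬ Good A ⌊c' * Real.log n⌋₊ (m₀ n))
      rw [tsub_le_iff_right, ← hbp]
      unfold costLaw
      calc (1 : ENNReal) = (Measure.pi fun _ : Sym2 (Fin n) => expMeasure (1 / (n : ℝ)))
            Set.univ := by rw [measure_univ]
        _ ≤ _ := measure_mono (by
            intro C _
            by_cases hG : Good (below (-Real.log (1 - q n) / (1 / (n : ℝ))) C)
              ⌊c' * Real.log n⌋₊ (m₀ n)
            · left
              exact connected_mono hkk C (connected_of_good hn hG)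
            · right
              exact hG)
        _ ≤ _ := measure_union_le _ _
    · filter_upwards [eventually_gt_atTop 0] with n hn
      have hn0 : (0 : ℝ) < n := by exact_mod_cast hn
      have hr : 0 < 1 / (n : ℝ) := by positivity
      have := isProbabilityMeasure_expMeasure hr
      unfold costLaw
      exact prob_le_one
  · intro hc
    obtain ⟨q, θ, hθ, hq, hlim⟩ := tendsto_bound_zero hc k hk
    have h3 := ENNReal.tendsto_ofReal hlim
    rw [ENNReal.ofReal_zero] at h3
    refine tendsto_of_tendsto_of_tendsto_of_le_of_le' tendsto_const_nhds h3 ?_ ?_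
    · exact Eventually.of_forall fun _ => zero_le
    · filter_upwards [hq, eventually_ge_atTop 2] with n hqn hn
      have hn0 : (0 : ℝ) < n := by exact_mod_cast (by omega : 0 < n)
      have hr : 0 < 1 / (n : ℝ) := by positivity
      have := isProbabilityMeasure_expMeasure hr
      have := expMeasure_nullSingleton (1 / (n : ℝ))
      unfold costLaw
      exact measure_connected_le _ (k n) (expMeasure (1 / (n : ℝ))) hqn.1.le hqn.2
        (expMeasure_Iio hr hqn.1 hqn.2) hθ hn

end Pool.Agent.Results.MP_ba8b4a_pr.Threshold
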